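import Pool.Agent.U737.MN.Stm3

/-!
# Project MN, package InjL: different ideals give different Kummer extensions
-/

set_option autoImplicit false

open NumberField Filter Topology UniqueFactorizationMonoid

namespace Pool.Agent.U928.MN

open Polynomial

section field

variable {M Ω : Type} [Field M] [Field Ω] [Algebra M Ω]

/-- Kummer theory for two radicals generating the same extension. -/
lemma kummer_pair {l : ℕ} (hl : l.Prime) {ζ : M} (hζ : IsPrimitiveRoot ζ l) {α β : M} {s t : Ω}
    (hα : α ≠ 0) (hβ : β ≠ 0) (hs : s ^ l = algebraMap M Ω α) (ht : t ^ l = algebraMap M Ω β)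
    (hsM : s ∉ Set.range (algebraMap M Ω)) (htM : t ∉ Set.range (algebraMap M Ω))
    (hts : t ∈ IntermediateField.adjoin M {s}) :
    ∃ (c : M) (k : ℕ), ¬ l ∣ k ∧ c ≠ 0 ∧ β = c ^ l * α ^ k := by
  have hinj : Function.Injective (algebraMap M Ω) := (algebraMap M Ω).injective
  have hl0 : NeZero l := ⟨hl.ne_zero⟩
  have hs0 : s ≠ 0 := by
    rintro rfl
    rw [zero_pow hl.ne_zero] at hs
    exact hα (hinj (by rw [map_zero]; exact hs.symm))
  have ht0 : t ≠ 0 := by
    rintro rfl
    rw [zero_pow hl.ne_zero] at ht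
    exact hβ (hinj (by rw [map_zero]; exact ht.symm))
  have hζΩ : IsPrimitiveRoot (algebraMap M Ω ζ) l := hζ.map_of_injective hinj
  -- `X ^ l - α` is irreducible
  have hirr : Irreducible (X ^ l - C α : M[X]) := by
    apply X_pow_sub_C_irreducible_of_prime hl
    intro b hb
    have hb0 : b ≠ 0 := by
      rintro rfl
      rw [zero_pow hl.ne_zero] at hb
      exact hα hb.symm
    have hbΩ : algebraMap M Ω b ≠ 0 := by rwa [Ne, map_eq_zero]
    have h1 : (s / algebraMap M Ω b) ^ l = 1 := by
      rw [div_pow, hs, ← map_pow, hb, div_self]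
      rwa [Ne, map_eq_zero]
    obtain ⟨i, -, hi⟩ := hζΩ.eq_pow_of_pow_eq_one h1
    apply hsM
    refine ⟨ζ ^ i * b, ?_⟩
    rw [map_mul, map_pow, hi, div_mul_cancel₀ _ hbΩ]
  have hmonic : (X ^ l - C α : M[X]).Monic := monic_X_pow_sub_C α hl.ne_zero
  have hdeg : (X ^ l - C α : M[X]).natDegree = l := natDegree_X_pow_sub_C
  have hroot : aeval s (X ^ l - C α : M[X]) = 0 := by
    rw [map_sub, map_pow, aeval_X, aeval_C, hs, sub_self]
  have hmin : X ^ l - C α = minpoly M s := minpoly.eq_of_irreducible_of_monic hirr hroot hmonic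
  have hint : IsIntegral M s := ⟨_, hmonic, by rw [← aeval_def]; exact hroot⟩
  -- `t` is a polynomial in `s`
  obtain ⟨g, hg⟩ : ∃ g : M[X], aeval s g = t := by
    have h1 : t ∈ (IntermediateField.adjoin M {s}).toSubalgebra := hts
    rw [IntermediateField.adjoin_simple_toSubalgebra_of_isAlgebraic hint.isAlgebraic,
      Algebra.adjoin_singleton_eq_range_aeval] at h1
    exact h1
  obtain ⟨g, hg, hgd⟩ : ∃ g : M[X], aeval s g = t ∧ g.natDegree < l := by
    refine ⟨g %ₘ (X ^ l - C α), ?_, ?_⟩
    · have h2 := Polynomial.modByMonic_add_div g (X ^ l - C α : M[X])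
      have h3 := congrArg (aeval s) h2
      rw [map_add, map_mul, hroot, zero_mul, add_zero, hg] at h3
      exact h3
    · have h2 := Polynomial.natDegree_modByMonic_lt g hmonic (by
        intro h3
        rw [h3] at hdeg
        rw [natDegree_one] at hdeg
        exact hl.ne_zero hdeg.symm)
      rwa [hdeg] at h2
  -- small polynomials vanishing at `s`
  have hsmall : ∀ h : M[X], h.natDegree < l → aeval s h = 0 → h = 0 := by
    intro h hd h0
    by_contra hne
    have h1 := natDegree_le_natDegree (minpoly.degree_le_of_ne_zero M s hne h0)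
    rw [← hmin, hdeg] at h1
    omega
  -- the conjugate
  have hconj : (aeval (algebraMap M Ω ζ * s) g) ^ l = t ^ l := by
    have h1 : aeval s (g ^ l - C β) = 0 := by
      rw [map_sub, map_pow, hg, aeval_C, ht, sub_self]
    have h2 : (X ^ l - C α) ∣ (g ^ l - C β) := by
      rw [hmin]
      exact minpoly.dvd M s h1
    obtain ⟨q, hq⟩ := h2
    have h3 := congrArg (aeval (algebraMap M Ω ζ * s)) hq
    rw [map_mul, map_sub, map_pow, map_sub, map_pow, aeval_C, aeval_C, aeval_X, mul_pow,
      hζΩ.pow_eq_one, one_mul, hs, sub_self, zero_mul, sub_eq_zero] at h3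
    rw [h3, ht]
  obtain ⟨k, hk, hk2⟩ := hζΩ.eq_pow_of_pow_eq_one (ξ := aeval (algebraMap M Ω ζ * s) g / t) (by
    rw [div_pow, hconj, div_self (pow_ne_zero _ ht0)])
  have hk3 : aeval (algebraMap M Ω ζ * s) g = algebraMap M Ω ζ ^ k * t := by
    rw [hk2, div_mul_cancel₀ _ ht0]
  -- comparison of coefficients
  have hcomp : (g.comp (C ζ * X) - C (ζ ^ k) * g) = 0 := by
    apply hsmall
    · refine lt_of_le_of_lt (natDegree_sub_le _ _) (max_lt ?_ ?_)
      · refine lt_of_le_of_lt natDegree_comp_le ?_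
        have h1 : (C ζ * X : M[X]).natDegree ≤ 1 := (natDegree_C_mul_le ζ X).trans natDegree_X_le
        calc g.natDegree * (C ζ * X : M[X]).natDegree ≤ g.natDegree * 1 := Nat.mul_le_mul_left _ h1
          _ < l := by rw [mul_one]; exact hgd
      · exact lt_of_le_of_lt (natDegree_C_mul_le _ _) hgd
    · rw [map_sub, aeval_comp, map_mul, map_mul, aeval_C, aeval_C, aeval_X, hk3, hg, map_pow, sub_self]
  have hcoef : ∀ i, i ≠ k → g.coeff i = 0 := by
    intro i hi
    by_cases hil : i < l
    · have h1 := congrArg (fun h : M[X] => h.coeff i) hcomp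
      simp only [coeff_sub, coeff_C_mul, coeff_zero] at h1
      rw [comp_C_mul_X_coeff] at h1
      have h2 : g.coeff i * (ζ ^ i - ζ ^ k) = 0 := by
        linear_combination h1
      rcases mul_eq_zero.1 h2 with h3 | h3
      · exact h3
      · exact absurd (hζ.pow_inj hil hk (sub_eq_zero.1 h3)) hi
    · exact coeff_eq_zero_of_natDegree_lt (by omega)
  have hgk : g = C (g.coeff k) * X ^ k := by
    ext i
    rw [coeff_C_mul, coeff_X_pow]
    by_cases h : i = k
    · subst h; simp
    · rw [hcoef i h, if_neg h, mul_zero]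
  have htk : t = algebraMap M Ω (g.coeff k) * s ^ k := by
    rw [← hg, hgk]
    rw [map_mul, map_pow, aeval_C, aeval_X]
    simp
  refine ⟨g.coeff k, k, ?_, ?_, ?_⟩
  · intro hlk
    have hk0 : k = 0 := Nat.eq_zero_of_dvd_of_lt hlk hk
    apply htM
    refine ⟨g.coeff k, ?_⟩
    rw [htk, hk0, pow_zero, mul_one]
  · intro h0
    rw [h0, map_zero, zero_mul] at htk
    exact ht0 htk
  · apply hinj
    rw [← ht, htk, mul_pow, ← pow_mul, mul_comm k l, pow_mul, hs, map_mul, map_pow, map_pow]

end field

section ideal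

variable {R : Type} [CommRing R] [IsDedekindDomain R]

open Classical in
lemma cnt_mul {x y P : Ideal R} (hx : x ≠ 0) (hy : y ≠ 0) :
    (normalizedFactors (x * y)).count P = (normalizedFactors x).count P +
      (normalizedFactors y).count P := by
  rw [normalizedFactors_mul hx hy, Multiset.count_add]

open Classical in
lemma cnt_pow {x P : Ideal R} (n : ℕ) :
    (normalizedFactors (x ^ n)).count P = n * (normalizedFactors x).count P := by
  rw [normalizedFactors_pow, Multiset.count_nsmul]

open Classical in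
lemma same_primes {l k : ℕ} (hl : l.Prime) (hk : ¬ l ∣ k) {A B f b b' : Ideal R} (hA : A ≠ 0)
    (hB : B ≠ 0) (hf : f ≠ 0) (hb : Squarefree b) (hb' : Squarefree b') (hbf : IsCoprime b f)
    (hbf' : IsCoprime b' f) (h : B ^ l * (f * b') = A ^ l * (f * b) ^ k) (P : Ideal R)
    (hP : Prime P) : P ∣ b ↔ P ∣ b' := by
  have hb0 : b ≠ 0 := hb.ne_zero
  have hb0' : b' ≠ 0 := hb'.ne_zero
  have h1 := congrArg (fun x : Ideal R => (normalizedFactors x).count P) h
  rw [cnt_mul (pow_ne_zero _ hB) (mul_ne_zero hf hb0'), cnt_mul hf hb0', cnt_pow,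
    cnt_mul (pow_ne_zero _ hA) (pow_ne_zero _ (mul_ne_zero hf hb0)), cnt_pow, cnt_pow,
    cnt_mul hf hb0] at h1
  have hx : (normalizedFactors b).count P ≤ 1 :=
    Multiset.nodup_iff_count_le_one.1 ((squarefree_iff_nodup_normalizedFactors hb0).1 hb) P
  have hx' : (normalizedFactors b').count P ≤ 1 :=
    Multiset.nodup_iff_count_le_one.1 ((squarefree_iff_nodup_normalizedFactors hb0').1 hb') P
  have hmem : ∀ x : Ideal R, x ≠ 0 → (P ∣ x ↔ (normalizedFactors x).count P ≠ 0) := by
    intro x hx0
    rw [Ne, Multiset.count_eq_zero, not_not, Ideal.mem_normalizedFactors_iff hx0]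
    constructor
    · intro hd
      exact ⟨Ideal.isPrime_of_prime hP, Ideal.dvd_iff_le.1 hd⟩
    · intro hd
      exact Ideal.dvd_iff_le.2 hd.2
  have hcop : ∀ x : Ideal R, IsCoprime x f → P ∣ x → (normalizedFactors f).count P = 0 := by
    intro x hxf hPx
    by_contra hne
    have hPf := (hmem f hf).2 hne
    have := hxf.isUnit_of_dvd' hPx hPf
    exact hP.not_isUnit this
  have hl2 := hl.two_le
  constructor
  · intro hPb
    have hf0 := hcop b hbf hPb
    have hxb := (hmem b hb0).1 hPb
    rw [hmem b' hb0']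
    intro h0
    rw [hf0, h0] at h1
    have hx1 : (normalizedFactors b).count P = 1 := by omega
    rw [hx1] at h1
    apply hk
    have h2 : l ∣ l * (normalizedFactors A).count P + k :=
      ⟨(normalizedFactors B).count P, by linarith [h1]⟩
    exact (Nat.dvd_add_right (Dvd.intro _ rfl)).1 h2
  · intro hPb
    have hf0 := hcop b' hbf' hPb
    have hxb := (hmem b' hb0').1 hPb
    rw [hmem b hb0]
    intro h0
    rw [hf0, h0] at h1
    have hx1 : (normalizedFactors b').count P = 1 := by omega
    rw [hx1] at h1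
    have h2 : l ∣ l * (normalizedFactors B).count P + 1 :=
      ⟨(normalizedFactors A).count P, by linarith [h1]⟩
    have h3 := (Nat.dvd_add_right (Dvd.intro _ rfl)).1 h2
    have := Nat.le_of_dvd one_pos h3
    omega

open Classical in
lemma dvd_of_primes {b b' : Ideal R} (hb : Squarefree b) (hb' : Squarefree b')
    (h : ∀ P : Ideal R, Prime P → P ∣ b → P ∣ b') : b ∣ b' := by
  have hb0 : b ≠ 0 := hb.ne_zero
  have hb0' : b' ≠ 0 := hb'.ne_zero
  rw [dvd_iff_normalizedFactors_le_normalizedFactors hb0 hb0',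
    Multiset.le_iff_subset ((squarefree_iff_nodup_normalizedFactors hb0).1 hb)]
  intro P hP
  have h1 := prime_of_normalized_factor P hP
  have h2 := dvd_of_mem_normalizedFactors hP
  have h3 := h P h1 h2
  rw [Ideal.mem_normalizedFactors_iff hb0']
  exact ⟨Ideal.isPrime_of_prime h1, Ideal.dvd_iff_le.1 h3⟩

end ideal

theorem t_InjL : (Pool.Agent.U737.MN.DegL → Pool.Agent.U737.MN.InjL) := by
  intro _ l K Ω _ _ _ _ _ M L _ _ α β s t f b b' hl hz hα hβ hs ht hKs hKt hf hb hb' hbf hbf'
    hαb hβb
  obtain ⟨ζ, hζ⟩ := hz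
  have hζM : IsPrimitiveRoot (algebraMap K M ζ) l := hζ.map_of_injective (algebraMap K M).injective
  have hαM : (α : M) ≠ 0 := (map_ne_zero_iff (algebraMap (𝓞 M) M) RingOfIntegers.coe_injective).2 hα
  have hβM : (β : M) ≠ 0 := (map_ne_zero_iff (algebraMap (𝓞 M) M) RingOfIntegers.coe_injective).2 hβ
  have hsM : s ∉ Set.range (algebraMap M Ω) := by
    rintro ⟨x, hx⟩
    exact hKs.2.1 (by rw [← hx]; exact x.2)
  have htM : t ∉ Set.range (algebraMap M Ω) := by
    rintro ⟨x, hx⟩
    exact hKt.2.1 (by rw [← hx]; exact x.2)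
  have htL : t ∈ L := by
    rw [hKt.2.2]
    exact (le_sup_right : IntermediateField.adjoin K {t} ≤ _)
      (IntermediateField.mem_adjoin_simple_self K t)
  have hle : L ≤ (IntermediateField.adjoin M {s}).restrictScalars K := by
    rw [hKs.2.2]
    refine sup_le ?_ ?_
    · intro x hx
      exact (IntermediateField.adjoin M {s}).algebraMap_mem ⟨x, hx⟩
    · rw [IntermediateField.adjoin_le_iff]
      rintro x hx
      rw [Set.mem_singleton_iff] at hx
      subst hx
      exact IntermediateField.mem_adjoin_simple_self M x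
  obtain ⟨c, k, hk, hc, hck⟩ := kummer_pair hl hζM hαM hβM hs ht hsM htM (hle htL)
  obtain ⟨x, y, hy, hxy⟩ := IsFractionRing.div_surjective (A := 𝓞 M) c
  have hy0 : y ≠ 0 := nonZeroDivisors.ne_zero hy
  have hyM : algebraMap (𝓞 M) M y ≠ 0 := (map_ne_zero_iff _ RingOfIntegers.coe_injective).2 hy0
  have hx0 : x ≠ 0 := by
    rintro rfl
    rw [map_zero, zero_div] at hxy
    exact hc hxy.symm
  have hmain : y ^ l * β = x ^ l * α ^ k := by
    apply RingOfIntegers.coe_injective
    have h1 : algebraMap (𝓞 M) M (y ^ l * β) = algebraMap (𝓞 M) M (x ^ l * α ^ k) := by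
      rw [map_mul, map_mul, map_pow, map_pow, map_pow]
      have h2 : algebraMap (𝓞 M) M β = c ^ l * (algebraMap (𝓞 M) M α) ^ k := hck
      rw [h2, ← hxy, div_pow]
      field_simp
    exact h1
  have hid : (Ideal.span {y}) ^ l * (f * b') = (Ideal.span {x}) ^ l * (f * b) ^ k := by
    rw [← hαb, ← hβb, Ideal.span_singleton_pow, Ideal.span_singleton_pow, Ideal.span_singleton_pow,
      Ideal.span_singleton_mul_span_singleton, Ideal.span_singleton_mul_span_singleton, hmain]
  have hsp := same_primes hl hk (A := Ideal.span {x}) (B := Ideal.span {y})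
    (by simpa using hx0) (by simpa using hy0) hf hb hb' hbf hbf' hid
  have hbb : b = b' := dvd_antisymm (dvd_of_primes hb hb' (fun P hP h => (hsp P hP).1 h))
    (dvd_of_primes hb' hb (fun P hP h => (hsp P hP).2 h))
  rw [hαb, hβb, hbb]

end Pool.Agent.U928.MN
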